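import Pool.Agent.H13.UpA
import Pool.Agent.H13.UpB

set_option autoImplicit false

namespace Pool.Agent.Results.MP_876e19_co.HamOrDiam

/-- Every finite connected vertex-transitive graph that has a Hamiltonian cycle, or has diameter at
most 2, has a uniform path system. The Hamiltonian cycle is given as a cyclic enumeration
`h : ZMod n ≃ V` of the vertices, `n ≥ 3`, with consecutive vertices adjacent; diameter at most 2 is
the statement that two distinct non-adjacent vertices have a common neighbour. -/
theorem result :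
    ∀ (V : Type) [Finite V] (G : SimpleGraph V),
      G.Connected →
      (∀ x y : V, ∃ φ : G ≃g G, φ x = y) →
      ((∃ (n : ℕ) (h : ZMod n ≃ V), 3 ≤ n ∧ ∀ i, G.Adj (h i) (h (i + 1))) ∨
        (∀ x y : V, x ≠ y → ¬ G.Adj x y → ∃ z, G.Adj x z ∧ G.Adj z y)) →
      ∃ P : ∀ x y : V, G.Walk x y,
        (∀ x y : V, x ≠ y → (P x y).IsPath) ∧
        ∃ c : ℕ, ∀ v : V,
          {p : V × V | p.1 ≠ p.2 ∧ v ∈ (P p.1 p.2).support}.ncard = c := by
  intro V _ G hconn htr hyp
  rcases hyp with ⟨n, h, hn, hadj⟩ | hd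
  · haveI : NeZero n := ⟨by omega⟩
    exact Pool.Agent.H13.Up.ham V G n h hadj
  · exact Pool.Agent.H13.Up.diam2 V G hconn.nonempty htr hd

end Pool.Agent.Results.MP_876e19_co.HamOrDiam
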